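import Pool.Agent.P8H19.AO.Stm

/-! Project AO of helper19, package CORE (helper4): the bound of Delsarte on a torus. -/

set_option autoImplicit false

namespace Pool.Agent.P8H4.AO

open Finset ComplexConjugate Pool.Agent.P8H19.AO

theorem shift {G : Type} [AddCommGroup G] [DecidableEq G] (B S : Finset G) (ψ : G → ℝ)
    (h0 : ∀ k, k ∉ B → ψ k = 0) (e : G) (hS : ∀ k ∈ B, k + e ∈ S) (g : G → ℂ) :
    ∑ k ∈ B, (ψ k : ℂ) * g (k + e) = ∑ k ∈ S, (ψ (k - e) : ℂ) * g k := by
  have h1 : ∑ k ∈ B, (ψ k : ℂ) * g (k + e) = ∑ k ∈ B.image (· + e), (ψ (k - e) : ℂ) * g k := by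
    rw [Finset.sum_image (fun a _ b _ h => add_right_cancel h)]
    exact Finset.sum_congr rfl fun k _ => by rw [add_sub_cancel_right]
  rw [h1]
  apply Finset.sum_subset
  · intro k hk
    obtain ⟨j, hj, rfl⟩ := Finset.mem_image.1 hk
    exact hS j hj
  · intro k _ hk
    rw [h0 (k - e) (fun h => hk (Finset.mem_image.2 ⟨k - e, h, sub_add_cancel k e⟩)),
      Complex.ofReal_zero, zero_mul]

theorem t_CORE : S_CORE := by
  classical
  intro m s lam C _ a u hC hlam hs1 B ψ hψ hψB hne hadj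
  obtain ⟨k0, hk0⟩ := hne
  obtain ⟨c, hc⟩ : ∃ c : (Fin m → ℤ) → C → ℂ, c = fun k x => ∏ i, (u x i) ^ (k i) := ⟨_, rfl⟩
  have un : ∀ x i, u x i ≠ 0 := fun x i h => by
    have := hC.norm x i
    rw [h] at this
    simp at this
  have cadd : ∀ k l x, c (k + l) x = c k x * c l x := by
    intro k l x
    simp only [hc, Pi.add_apply, ← Finset.prod_mul_distrib]
    exact Finset.prod_congr rfl fun i _ => zpow_add₀ (un x i) _ _
  have conju : ∀ x i, conj (u x i) = (u x i)⁻¹ := by
    intro x i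
    rw [Complex.inv_def, Complex.normSq_eq_norm_sq, hC.norm]
    simp
  have cneg : ∀ k x, conj (c k x) = c (-k) x := by
    intro k x
    simp only [hc, map_prod, map_zpow₀, conju, Pi.neg_apply, zpow_neg, inv_zpow]
  have c0 : ∀ x, c 0 x = 1 := by intro x; simp [hc]
  have cs : ∀ i x, c (Pi.single i 1) x = u x i := by
    intro i x
    simp only [hc]
    rw [Finset.prod_eq_single i]
    · simp
    · intro j _ hj
      rw [Pi.single_eq_of_ne hj, zpow_zero]
    · intro h; exact absurd (Finset.mem_univ _) h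
  obtain ⟨w, hw⟩ : ∃ w : (Fin m → ℤ) → C → C → ℂ, w = fun k x y => c k x * conj (c k y) := ⟨_, rfl⟩
  have wadd : ∀ k l x y, w (k + l) x y = w k x y * w l x y := by
    intro k l x y
    simp only [hw, cadd, map_mul]
    ring
  have wneg : ∀ k x y, conj (w k x y) = w (-k) x y := by
    intro k x y
    simp only [hw, map_mul, cneg, neg_neg]
  have ws : ∀ i x y, w (Pi.single i 1) x y = u x i * conj (u y i) := by
    intro i x y
    simp only [hw, cs]
  obtain ⟨K, hK⟩ : ∃ K : C → C → ℝ, K = fun x y => ∑ i, a i * (u x i * conj (u y i)).re := ⟨_, rfl⟩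
  have hKw : ∀ x y, (K x y : ℂ) =
      ∑ i, (a i : ℂ) * ((w (Pi.single i 1) x y + w (-Pi.single i 1) x y) / 2) := by
    intro x y
    rw [hK]
    push_cast
    refine Finset.sum_congr rfl fun i _ => ?_
    rw [← wneg, ws, Complex.add_conj]
    push_cast
    ring
  obtain ⟨W, hWd⟩ : ∃ W : (Fin m → ℤ) → ℝ, W = fun l => Complex.normSq (∑ x, c l x) := ⟨_, rfl⟩
  have W0 : ∀ l, 0 ≤ W l := fun l => by rw [hWd]; exact Complex.normSq_nonneg _
  have hW : ∀ l, ∑ x, ∑ y, w l x y = (W l : ℂ) := by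
    intro l
    simp only [hw, hWd, ← Complex.mul_conj, map_sum, Finset.sum_mul_sum]
  have Wz : W 0 = (Fintype.card C : ℝ) ^ 2 := by
    simp only [hWd, c0]
    simp [sq]
  obtain ⟨S, hS⟩ : ∃ S : Finset (Fin m → ℤ), S = B ∪ Finset.univ.biUnion (fun i : Fin m =>
    B.image (fun k => k + Pi.single i 1) ∪ B.image (fun k => k + -Pi.single i 1)) := ⟨_, rfl⟩
  have SB : B ⊆ S := by rw [hS]; exact Finset.subset_union_left
  have Sp : ∀ i, ∀ k ∈ B, k + Pi.single i 1 ∈ S := by
    intro i k hk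
    rw [hS]
    refine Finset.mem_union_right _ (Finset.mem_biUnion.2 ⟨i, Finset.mem_univ _,
      Finset.mem_union_left _ (Finset.mem_image.2 ⟨k, hk, rfl⟩)⟩)
  have Sm : ∀ i, ∀ k ∈ B, k + -Pi.single i 1 ∈ S := by
    intro i k hk
    rw [hS]
    refine Finset.mem_union_right _ (Finset.mem_biUnion.2 ⟨i, Finset.mem_univ _,
      Finset.mem_union_right _ (Finset.mem_image.2 ⟨k, hk, rfl⟩)⟩)
  obtain ⟨F, hF⟩ : ∃ F : C → C → ℂ, F = fun x y => ∑ k ∈ B, (ψ k : ℂ) * w k x y := ⟨_, rfl⟩
  obtain ⟨θ, hθ⟩ : ∃ θ : (Fin m → ℤ) → ℝ, θ = fun k => adj a ψ k - s * ψ k := ⟨_, rfl⟩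
  have hKF : ∀ x y, ((K x y - s : ℝ) : ℂ) * F x y = ∑ k ∈ S, (θ k : ℂ) * w k x y := by
    intro x y
    have h1 : ∀ i, (w (Pi.single i 1) x y + w (-Pi.single i 1) x y) * F x y =
        ∑ k ∈ S, ((ψ (k - Pi.single i 1) : ℂ) + ψ (k + Pi.single i 1)) * w k x y := by
      intro i
      have e1 := shift B S ψ hψB (Pi.single i 1) (Sp i) (fun k => w k x y)
      have e2 := shift B S ψ hψB (-Pi.single i 1) (Sm i) (fun k => w k x y)
      simp only [wadd, sub_neg_eq_add] at e1 e2
      rw [add_mul, hF]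
      simp only [add_mul, Finset.sum_add_distrib]
      rw [← e1, ← e2, Finset.mul_sum, Finset.mul_sum]
      congr 1
      · exact Finset.sum_congr rfl fun k _ => by ring
      · exact Finset.sum_congr rfl fun k _ => by ring
    have h2 : F x y = ∑ k ∈ S, (ψ k : ℂ) * w k x y := by
      rw [hF]
      exact Finset.sum_subset SB fun k _ hk => by rw [hψB k hk]; simp
    have h3 : (K x y : ℂ) * F x y = ∑ k ∈ S, (adj a ψ k : ℂ) * w k x y := by
      rw [hKw, Finset.sum_mul]
      have : ∀ i, (a i : ℂ) * ((w (Pi.single i 1) x y + w (-Pi.single i 1) x y) / 2) * F x y =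
          ∑ k ∈ S, (a i : ℂ) * (((ψ (k + Pi.single i 1) : ℂ) + ψ (k - Pi.single i 1)) / 2) *
            w k x y := by
        intro i
        have := h1 i
        calc _ = (a i : ℂ) / 2 * ((w (Pi.single i 1) x y + w (-Pi.single i 1) x y) * F x y) := by
              ring
          _ = _ := by
              rw [this, Finset.mul_sum]
              exact Finset.sum_congr rfl fun k _ => by ring
      rw [Finset.sum_congr rfl fun i _ => this i, Finset.sum_comm]
      refine Finset.sum_congr rfl fun k _ => ?_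
      unfold adj
      push_cast
      rw [Finset.sum_mul]
    push_cast
    rw [sub_mul, h3, h2, Finset.mul_sum, ← Finset.sum_sub_distrib]
    refine Finset.sum_congr rfl fun k _ => ?_
    rw [hθ]
    push_cast
    ring
  obtain ⟨T, hT⟩ : ∃ T : ℝ, T = ∑ x, ∑ y, (K x y - s) * Complex.normSq (F x y) := ⟨_, rfl⟩
  have hT2 : T = ∑ k ∈ S, ∑ j ∈ B, θ k * ψ j * W (k - j) := by
    have : (T : ℂ) = ((∑ k ∈ S, ∑ j ∈ B, θ k * ψ j * W (k - j) : ℝ) : ℂ) := by
      rw [hT]
      push_cast
      have h1 : ∀ x y, ((K x y : ℂ) - s) * (Complex.normSq (F x y) : ℂ) =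
          ∑ k ∈ S, ∑ j ∈ B, (θ k : ℂ) * ψ j * w (k - j) x y := by
        intro x y
        rw [← Complex.mul_conj, ← mul_assoc]
        have h2 := hKF x y
        push_cast at h2
        rw [h2]
        have h3 : conj (F x y) = ∑ j ∈ B, (ψ j : ℂ) * w (-j) x y := by
          rw [hF]
          simp only [map_sum, map_mul, Complex.conj_ofReal, wneg]
        rw [h3, Finset.sum_mul_sum]
        refine Finset.sum_congr rfl fun k _ => Finset.sum_congr rfl fun j _ => ?_
        rw [sub_eq_add_neg, wadd]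
        ring
      simp only [h1]
      have h4 : ∀ x, ∑ y, ∑ k ∈ S, ∑ j ∈ B, (θ k : ℂ) * ψ j * w (k - j) x y =
          ∑ k ∈ S, ∑ j ∈ B, (θ k : ℂ) * ψ j * ∑ y, w (k - j) x y := by
        intro x
        rw [Finset.sum_comm]
        refine Finset.sum_congr rfl fun k _ => ?_
        rw [Finset.sum_comm]
        refine Finset.sum_congr rfl fun j _ => ?_
        rw [Finset.mul_sum]
      simp only [h4]
      rw [Finset.sum_comm]
      refine Finset.sum_congr rfl fun k _ => ?_
      rw [Finset.sum_comm]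
      refine Finset.sum_congr rfl fun j _ => ?_
      rw [← Finset.mul_sum, hW]
    exact_mod_cast this
  have adj0 : ∀ k, 0 ≤ adj a ψ k := by
    intro k
    unfold adj
    refine Finset.sum_nonneg fun i _ => mul_nonneg (hC.nonneg i) ?_
    have := hψ (k + Pi.single i 1)
    have := hψ (k - Pi.single i 1)
    positivity
  have hθ0 : ∀ k, (lam - s) * ψ k ≤ θ k := by
    intro k
    rw [hθ]
    by_cases hk : k ∈ B
    · have := hadj k hk
      simp only
      linarith
    · have := adj0 k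
      simp only
      rw [hψB k hk]
      linarith
  have hls : 0 < lam - s := by linarith
  have hlow : (lam - s) * (∑ k ∈ B, ψ k ^ 2) * (Fintype.card C : ℝ) ^ 2 ≤ T := by
    rw [hT2]
    have h1 : ∑ k ∈ B, ∑ j ∈ B, θ k * ψ j * W (k - j) ≤ ∑ k ∈ S, ∑ j ∈ B, θ k * ψ j * W (k - j) := by
      refine Finset.sum_le_sum_of_subset_of_nonneg SB fun k _ _ => Finset.sum_nonneg fun j _ => ?_
      exact mul_nonneg (mul_nonneg ((mul_nonneg hls.le (hψ k)).trans (hθ0 k)) (hψ j)) (W0 _)
    refine le_trans ?_ h1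
    rw [Finset.mul_sum, Finset.sum_mul]
    refine Finset.sum_le_sum fun k hk => ?_
    have h2 : θ k * ψ k * W (k - k) ≤ ∑ j ∈ B, θ k * ψ j * W (k - j) :=
      Finset.single_le_sum (f := fun j => θ k * ψ j * W (k - j)) (fun j _ =>
        mul_nonneg (mul_nonneg ((mul_nonneg hls.le (hψ k)).trans (hθ0 k)) (hψ j)) (W0 _)) hk
    refine le_trans ?_ h2
    rw [sub_self, Wz]
    refine mul_le_mul_of_nonneg_right ?_ (by positivity)
    calc (lam - s) * ψ k ^ 2 = (lam - s) * ψ k * ψ k := by ring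
      _ ≤ θ k * ψ k := mul_le_mul_of_nonneg_right (hθ0 k) (hψ k)
  have hup : T ≤ (Fintype.card C : ℝ) * ((1 - s) * (B.card * ∑ k ∈ B, ψ k ^ 2)) := by
    rw [hT]
    have h1 : ∀ x, ∑ y, (K x y - s) * Complex.normSq (F x y) ≤
        (1 - s) * (B.card * ∑ k ∈ B, ψ k ^ 2) := by
      intro x
      have h2 : ∑ y, (K x y - s) * Complex.normSq (F x y) ≤ (K x x - s) * Complex.normSq (F x x) := by
        rw [← Finset.add_sum_erase _ _ (Finset.mem_univ x)]
        have : ∑ y ∈ Finset.univ.erase x, (K x y - s) * Complex.normSq (F x y) ≤ 0 := by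
          refine Finset.sum_nonpos fun y hy => ?_
          refine mul_nonpos_of_nonpos_of_nonneg ?_ (Complex.normSq_nonneg _)
          have := hC.sep x y (Finset.ne_of_mem_erase hy).symm
          rw [hK]
          simp only
          linarith
        linarith
      refine h2.trans ?_
      have h3 : K x x = 1 := by
        rw [hK, ← hC.sum]
        refine Finset.sum_congr rfl fun i _ => ?_
        rw [conju, mul_inv_cancel₀ (un x i), Complex.one_re, mul_one]
      have h4 : ∀ k, w k x x = 1 := by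
        intro k
        simp only [hw, cneg]
        rw [← cadd, add_neg_cancel, c0]
      have h5 : F x x = ((∑ k ∈ B, ψ k : ℝ) : ℂ) := by
        rw [hF]
        simp only [h4, mul_one]
        push_cast
        rfl
      rw [h3, h5, Complex.normSq_ofReal]
      refine mul_le_mul_of_nonneg_left ?_ (by linarith)
      rw [← sq]
      exact sq_sum_le_card_mul_sum_sq
    calc _ ≤ ∑ _x : C, (1 - s) * (B.card * ∑ k ∈ B, ψ k ^ 2) := Finset.sum_le_sum fun x _ => h1 x
      _ = _ := by rw [Finset.sum_const, nsmul_eq_mul, Finset.card_univ]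
  have hpos : 0 < ∑ k ∈ B, ψ k ^ 2 := by
    have hk : k0 ∈ B := by
      by_contra h
      exact hk0 (hψB k0 h)
    refine Finset.sum_pos' (fun k _ => sq_nonneg _) ⟨k0, hk, ?_⟩
    positivity
  rcases Nat.eq_zero_or_pos (Fintype.card C) with h0 | h0
  · rw [h0]
    have : (0 : ℝ) ≤ (1 - s) * B.card := mul_nonneg (by linarith) (by positivity)
    simpa using this
  · have h1 : (0 : ℝ) < Fintype.card C := by exact_mod_cast h0
    have h2 := hlow.trans hup
    have h3 : 0 < (Fintype.card C : ℝ) * ∑ k ∈ B, ψ k ^ 2 := mul_pos h1 hpos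
    refine le_of_mul_le_mul_right ?_ h3
    nlinarith [h2]

end Pool.Agent.P8H4.AO
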