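import Pool.Agent.P8H19.AO.Stm

/-! Project AO of helper19, package PF (helper4): Perron and Frobenius for symmetric matrices. -/

set_option autoImplicit false

namespace Pool.Agent.P8H4.AO

open Finset Pool.Agent.P8H19.AO Matrix

theorem t_PF : S_PF := by
  intro β _ _ M hM h0 v hv
  obtain ⟨N, hN⟩ : ∃ N : (β → ℝ) → ℝ, N = fun x => x ⬝ᵥ x := ⟨_, rfl⟩
  obtain ⟨Q, hQ⟩ : ∃ Q : (β → ℝ) → ℝ, Q = fun x => x ⬝ᵥ M.mulVec x := ⟨_, rfl⟩
  have Nc : Continuous N := by
    rw [hN]
    unfold dotProduct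
    fun_prop
  have Qc : Continuous Q := by
    rw [hQ]
    unfold dotProduct mulVec dotProduct
    fun_prop
  have N0 : ∀ x, 0 ≤ N x := fun x => by rw [hN]; exact dotProduct_self_star_nonneg x
  have Npos : ∀ x, x ≠ 0 → 0 < N x := fun x hx => by
    refine lt_of_le_of_ne (N0 x) fun h => hx ?_
    rw [hN] at h
    exact dotProduct_self_eq_zero.1 h.symm
  have Ns : ∀ (t : ℝ) x, N (t • x) = t ^ 2 * N x := by
    intro t x
    rw [hN]
    simp only [smul_dotProduct, dotProduct_smul, smul_eq_mul]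
    ring
  have Qs : ∀ (t : ℝ) x, Q (t • x) = t ^ 2 * Q x := by
    intro t x
    rw [hQ]
    simp only [mulVec_smul, smul_dotProduct, dotProduct_smul, smul_eq_mul]
    ring
  have nrm : ∀ x, x ≠ 0 → N ((√(N x))⁻¹ • x) = 1 := by
    intro x hx
    rw [Ns, inv_pow, Real.sq_sqrt (N0 x), inv_mul_cancel₀ (Npos x hx).ne']
  have hK : IsCompact {x : β → ℝ | N x = 1} := by
    apply Metric.isCompact_of_isClosed_isBounded
    · exact isClosed_eq Nc continuous_const
    · rw [isBounded_iff_forall_norm_le]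
      refine ⟨1, fun x hx => ?_⟩
      rw [pi_norm_le_iff_of_nonneg zero_le_one]
      intro i
      have h1 : x i * x i ≤ N x := by
        rw [hN]
        exact Finset.single_le_sum (f := fun i => x i * x i) (fun j _ => mul_self_nonneg _)
          (Finset.mem_univ i)
      rw [hx] at h1
      rw [Real.norm_eq_abs, abs_le]
      constructor <;> nlinarith
  obtain ⟨w0, hw0, hmax⟩ := hK.exists_isMaxOn ⟨_, nrm v hv⟩ Qc.continuousOn
  have hw1 : N w0 = 1 := hw0
  have ray : ∀ x, Q x ≤ Q w0 * N x := by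
    intro x
    by_cases hx : x = 0
    · subst hx
      rw [hQ, hN]
      simp
    · have h1 := hmax (nrm x hx)
      have h2 : Q ((√(N x))⁻¹ • x) ≤ Q w0 := h1
      rw [Qs, inv_pow, Real.sq_sqrt (N0 x), inv_mul_le_iff₀ (Npos x hx)] at h2
      linarith
  obtain ⟨w, hw⟩ : ∃ w : β → ℝ, w = fun i => |w0 i| := ⟨_, rfl⟩
  have hwN : N w = 1 := by
    rw [← hw1, hN, hw]
    unfold dotProduct
    exact Finset.sum_congr rfl fun i _ => abs_mul_abs_self _
  have hwQ : Q w = Q w0 := by
    apply le_antisymm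
    · have := ray w
      rw [hwN, mul_one] at this
      exact this
    · rw [hQ, hw]
      unfold mulVec dotProduct
      refine Finset.sum_le_sum fun i _ => ?_
      simp only
      rw [Finset.mul_sum, Finset.mul_sum]
      refine Finset.sum_le_sum fun j _ => ?_
      have h1 : w0 i * w0 j ≤ |w0 i| * |w0 j| := by
        rw [← abs_mul]
        exact le_abs_self _
      have h2 := mul_le_mul_of_nonneg_left h1 (h0 i j)
      calc w0 i * (M i j * w0 j) = M i j * (w0 i * w0 j) := by ring
        _ ≤ M i j * (|w0 i| * |w0 j|) := h2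
        _ = _ := by ring
  have hlin : ∀ z : β → ℝ, z ⬝ᵥ M.mulVec w = Q w0 * (z ⬝ᵥ w) := by
    intro z
    have hsym : w ⬝ᵥ M.mulVec z = z ⬝ᵥ M.mulVec w := by
      rw [dotProduct_mulVec, dotProduct_comm, ← mulVec_transpose, hM.eq]
    have h1 : ∀ t : ℝ, 0 ≤ (Q w0 * N z - Q z) * (t * t) +
        (2 * (Q w0 * (z ⬝ᵥ w) - z ⬝ᵥ M.mulVec w)) * t + 0 := by
      intro t
      have h2 := ray (w + t • z)
      have e1 : N (w + t • z) = 1 + 2 * t * (z ⬝ᵥ w) + t ^ 2 * N z := by
        rw [← hwN, hN]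
        simp only [dotProduct_add, add_dotProduct, smul_dotProduct, dotProduct_smul, smul_eq_mul]
        rw [dotProduct_comm w z]
        ring
      have e2 : Q (w + t • z) = Q w0 + 2 * t * (z ⬝ᵥ M.mulVec w) + t ^ 2 * Q z := by
        rw [← hwQ, hQ]
        simp only [mulVec_add, mulVec_smul, dotProduct_add, add_dotProduct, smul_dotProduct,
          dotProduct_smul, smul_eq_mul]
        rw [hsym]
        ring
      rw [e1, e2] at h2
      nlinarith [h2]
    have h3 := discrim_le_zero h1
    unfold discrim at h3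
    have h4 : 2 * (Q w0 * (z ⬝ᵥ w) - z ⬝ᵥ M.mulVec w) = 0 := by
      rw [← sq_eq_zero_iff]
      apply le_antisymm _ (sq_nonneg _)
      linarith
    linarith
  refine ⟨w, Q w0, ?_, ?_, ?_, ?_⟩
  · intro h
    rw [h, hN] at hwN
    simp at hwN
  · intro i
    rw [hw]
    exact abs_nonneg _
  · funext i
    have := hlin (Pi.single i 1)
    rw [single_one_dotProduct, single_one_dotProduct] at this
    rw [this]
    rfl
  · have := ray v
    rw [hQ, hN] at this
    rw [hQ]
    exact this

end Pool.Agent.P8H4.AO
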